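import Pool.Agent.H189.ME.Main
import Pool.Agent.R988.Base
import Pool.Agent.R988.Up

/-! The weights of the matrix elements of plane waves on the torus, in every dimension `d ≥ 2`. -/

set_option autoImplicit false
set_option linter.unusedSectionVars false
set_option linter.unusedVariables false

open scoped BigOperators ComplexConjugate Topology
open Set MeasureTheory Filter

namespace Pool.Agent.H189.ME2

open Pool.Agent.H189.ME
open Pool.Agent.R988 Pool.Agent.R988.Tor Pool.Agent.R988.LA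
open Pool.Agent.H4R2.LO (Zd)
open Pool.Agent.TH794.HK (ph Tg)
open Pool.Agent.TH794.QE (Rs RegE)
open Pool.Agent.TH794.QD (GF F0 F1)

/-- the bulk energies, measured from the centre of the band -/
def Bk (d : ℕ) (κ E : ℝ) : Prop := RegE d κ E ∧ |E| ≤ 2 * d - κ

theorem Bk.near {d : ℕ} {κ κ' E E' r : ℝ} (h : Bk d κ E) (hr : |E - E'| ≤ r) (hκ : κ' + r ≤ κ)
    (hκ0 : 0 < κ') : Bk d κ' E' := by
  obtain ⟨h1, h2⟩ := h
  have e1 := abs_sub_abs_le_abs_sub E E'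
  have e2 := abs_sub_abs_le_abs_sub E' E
  rw [abs_sub_comm] at e2
  have hr0 : 0 ≤ r := (abs_nonneg _).trans hr
  refine ⟨?_, by linarith⟩
  rcases h1 with ⟨hd, h3, h4⟩ | ⟨hd, h3⟩
  · exact Or.inl ⟨hd, by linarith, by linarith⟩
  · refine Or.inr ⟨hd, ?_⟩
    have : (0 : ℝ) ≤ d := by positivity
    linarith

theorem cont_of {d : ℕ} {κ : ℝ} (F : ℝ → ℂ) (γ g : ℝ → ℂ)
    (hγ : ∀ E, RegE d κ E →
      Tendsto (fun t : ℝ => GF F ((E : ℂ) + (t : ℂ) * Complex.I)) (𝓝[>] 0) (𝓝 (γ E)))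
    (hg : ∀ E, RegE d κ E →
      Tendsto (fun t : ℝ => GF F ((E : ℂ) + (t : ℂ) * Complex.I)) (𝓝[>] 0) (𝓝 (g E)))
    (hc : ContinuousOn g {E | RegE d κ E}) : ContinuousOn γ {E | RegE d κ E} := by
  refine hc.congr fun E hE => ?_
  exact tendsto_nhds_unique (hγ E hE) (hg E hE)

theorem lip_cont (S : Set ℝ) (g : ℝ → ℂ) (C : ℝ) (hC : 0 ≤ C)
    (h : ∀ E ∈ S, ∀ E' ∈ S, ‖g E - g E'‖ ≤ C * |E - E'| ^ (1 / 8 : ℝ)) : ContinuousOn g S := by
  intro E hE
  unfold ContinuousWithinAt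
  rw [tendsto_iff_norm_sub_tendsto_zero]
  have hc : Continuous fun E' : ℝ => C * |E' - E| ^ (1 / 8 : ℝ) := by
    have := Real.continuous_rpow_const (show (0 : ℝ) ≤ 1 / 8 by norm_num)
    fun_prop
  have h2 : Tendsto (fun E' : ℝ => C * |E' - E| ^ (1 / 8 : ℝ)) (𝓝[S] E) (𝓝 0) := by
    have h3 := hc.tendsto E
    simp only [sub_self, abs_zero] at h3
    rw [Real.zero_rpow (by norm_num), mul_zero] at h3
    exact h3.mono_left nhdsWithin_le_nhds
  refine squeeze_zero' (Eventually.of_forall fun _ => norm_nonneg _) ?_ h2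
  filter_upwards [self_mem_nhdsWithin] with E' hE'
  exact h E' hE' E hE

theorem cont_bulk (d : ℕ) (hd2 : d = 2) (κ : ℝ) (hκ : 0 < κ) (hκ1 : κ ≤ 1) (γ0 γ1 : ℝ → ℂ)
    (h : ∀ E, RegE d κ E →
      Tendsto (fun t : ℝ => GF (F0 d) ((E : ℂ) + (t : ℂ) * Complex.I)) (𝓝[>] 0) (𝓝 (γ0 E)) ∧
      Tendsto (fun t : ℝ => GF (F1 d) ((E : ℂ) + (t : ℂ) * Complex.I)) (𝓝[>] 0) (𝓝 (γ1 E))) :
    ContinuousOn γ0 {E | RegE d κ E} ∧ ContinuousOn γ1 {E | RegE d κ E} := by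
  subst hd2
  have hB : ∀ E, RegE 2 κ E → Pool.Agent.TH311.LL2D.Bu κ E := by
    intro E hE
    rcases hE with h | h
    · exact h.2
    · exact absurd h.1 (by norm_num)
  have hC : 0 ≤ 2 * Pool.Agent.TH311.LL2D.CH κ := by
    have := Pool.Agent.TH311.LL2D.CH_ge κ
    linarith
  constructor
  · refine cont_of (F0 2) γ0 (Pool.Agent.TH794.QE.bvl (F0 2)) (fun E hE => (h E hE).1)
      (fun E hE => (Pool.Agent.TH794.QE.holS0 κ hκ hκ1).bv E (hB E hE)) ?_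
    exact lip_cont _ _ _ hC fun E hE E' hE' =>
      (Pool.Agent.TH794.QE.holS0 κ hκ hκ1).lip E E' (hB E hE) (hB E' hE')
  · refine cont_of (F1 2) γ1 (Pool.Agent.TH794.QE.bvl (F1 2)) (fun E hE => (h E hE).2)
      (fun E hE => (Pool.Agent.TH794.QE.holS1 κ hκ hκ1).bv E (hB E hE)) ?_
    exact lip_cont _ _ _ hC fun E hE E' hE' =>
      (Pool.Agent.TH794.QE.holS1 κ hκ hκ1).lip E E' (hB E hE) (hB E' hE')

end Pool.Agent.H189.ME2
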