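import Pool.Agent.H189.W.Loc3
import Pool.Agent.H189.ME2.Bulk

/-! The mass of the resolvent in a ball, from its profile. -/

set_option autoImplicit false
set_option linter.unusedVariables false

open scoped BigOperators ComplexConjugate Topology
open Set MeasureTheory Filter

namespace Pool.Agent.H189.ME2

open Pool.Agent.R988 Pool.Agent.R988.Tor
open Pool.Agent.H4R2.LO (Zd)
open Pool.Agent.TH794.HK (ph Tg)
open Pool.Agent.TH794.QE (Rs RegE)

theorem ball_mass {d : ℕ} (i : Fin d) (a : Zd d) (g : Zd d → ℂ) (hg : Summable fun x => ‖g x‖ ^ 2)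
    (γ0 γ1 : ℝ → ℂ) (E η s2 m1 C0 er : ℝ) (hη : 0 < η) (hs2 : 0 < s2) (m : ℕ) (R Rn ζ : ℝ)
    (hm1 : 0 < m1) (hC0 : 0 < C0) (h1 : m1 ≤ (γ1 E).im) (h2 : (γ1 E).im ≤ (γ0 E).im)
    (h3 : (γ0 E).im ≤ C0) (her1 : er ≤ 1) (hζ : 0 < ζ) (her2 : er ≤ ζ / 2)
    (hR : 0 ≤ R) (hrm : Real.sqrt (η * s2) * m * R ≤ Real.pi / 3)
    (hRn : Rn = 1 + 2 * C0 / (m1 / C0 ^ 2 * ζ))
    (hpr : ∀ p : Fin d → ℝ, ∑ i, p i ^ 2 ≤ (m : ℝ) ^ 2 * (η * s2) →
      ‖((η : ℝ) : ℂ) * ∑' x, ph p (x - a) * ((‖g x‖ ^ 2 : ℝ) : ℂ) -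
        ((Tg γ0 γ1 η s2 E p : ℝ) : ℂ)‖ ≤ er) :
    η * ∑' x, (if ‖x - a‖ ≤ R then ‖g x‖ ^ 2 else 0) ≤
      4 * ((C0 + 1) * ((2 * Rn + 1) / (m + 1)) + ζ) := by
  obtain ⟨r, hr⟩ : ∃ r, r = Real.sqrt (η * s2) := ⟨_, rfl⟩
  have hr0 : 0 ≤ r := by rw [hr]; exact Real.sqrt_nonneg _
  have hr2 : r ^ 2 = η * s2 := by rw [hr]; exact Real.sq_sqrt (by positivity)
  rw [← hr] at hrm
  obtain ⟨c1, hc1⟩ : ∃ c1, c1 = m1 / C0 ^ 2 := ⟨_, rfl⟩
  have hc10 : 0 < c1 := by rw [hc1]; positivity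
  rw [← hc1] at hRn
  have hRn1 : 1 ≤ Rn := by
    rw [hRn]
    have : 0 ≤ 2 * C0 / (c1 * ζ) := by positivity
    linarith
  have hg0 : 0 < (γ0 E).im := by linarith
  obtain ⟨D, hD⟩ : ∃ D, D = (γ1 E).im / (γ0 E).im ^ 2 := ⟨_, rfl⟩
  have hDl : c1 ≤ D := by
    rw [hc1, hD]
    exact div_le_div₀ (by linarith) h1 (by positivity) (pow_le_pow_left₀ hg0.le h3 2)
  have hDn : 0 ≤ D := hc10.le.trans hDl
  have h6 := Pool.Agent.H189.W.fej i a m r R hr0 hR hrm g hg η hη.le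
    (fun n => C0 / (1 + c1 * (n : ℝ) ^ 2) + er) (fun n hn => by
      have hnm : ((n : ℝ)) ^ 2 ≤ (m : ℝ) ^ 2 := by
        have : |(n : ℝ)| ≤ m := by exact_mod_cast hn
        rw [← sq_abs]
        gcongr
      have hq2 : ∑ k, (Pi.single i (r * (n : ℝ)) : Fin d → ℝ) k ^ 2 = (n : ℝ) ^ 2 * (η * s2) := by
        rw [Finset.sum_eq_single i]
        · rw [Pi.single_eq_same, mul_pow, hr2]
          ring
        · intro k _ hk
          rw [Pi.single_eq_of_ne hk]
          ring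
        · intro hi
          exact absurd (Finset.mem_univ i) hi
      have h7 := hpr (Pi.single i (r * (n : ℝ))) (by
        rw [hq2]
        exact mul_le_mul_of_nonneg_right hnm (by positivity))
      have hT : Tg γ0 γ1 η s2 E (Pi.single i (r * (n : ℝ)) : Fin d → ℝ) =
          (γ0 E).im / (1 + D * (n : ℝ) ^ 2) := by
        unfold Tg
        rw [hq2, hD]
        congr 2
        have : η * s2 ≠ 0 := by positivity
        field_simp
      rw [hT] at h7
      have e3 : ∀ x : Fin d → ℤ, ph (Pi.single i (r * (n : ℝ)) : Fin d → ℝ) (x - a) =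
          Complex.exp (Complex.I * ((r * n * ((x i : ℝ) - a i) : ℝ) : ℂ)) := by
        intro x
        unfold ph
        rw [Finset.sum_eq_single i]
        · rw [Pi.single_eq_same, Pi.sub_apply]
          push_cast
          rfl
        · intro k _ hk
          rw [Pi.single_eq_of_ne hk]
          ring
        · intro hi
          exact absurd (Finset.mem_univ i) hi
      simp only [e3] at h7
      have h8 := norm_le_norm_sub_add ((η : ℂ) * ∑' x : Fin d → ℤ, Complex.exp (Complex.I *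
        ((r * n * ((x i : ℝ) - a i) : ℝ) : ℂ)) * ((‖g x‖ ^ 2 : ℝ) : ℂ))
        (((γ0 E).im / (1 + D * (n : ℝ) ^ 2) : ℝ) : ℂ)
      refine h8.trans ?_
      rw [add_comm]
      refine add_le_add ?_ h7
      rw [Complex.norm_real, Real.norm_of_nonneg (by positivity)]
      have h9 : 1 + c1 * (n : ℝ) ^ 2 ≤ 1 + D * (n : ℝ) ^ 2 := by gcongr
      exact div_le_div₀ hC0.le h3 (by positivity) h9)
  have h7 := Pool.Agent.R988.Tor.avg_le m
    (fun n => C0 / (1 + c1 * (n : ℝ) ^ 2) + er) (C0 + 1) Rn ζ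
    (by linarith) (by positivity) hζ.le (fun n _ => by
      have h8 : C0 / (1 + c1 * (n : ℝ) ^ 2) ≤ C0 := div_le_self hC0.le (by
        have : 0 ≤ c1 * (n : ℝ) ^ 2 := by positivity
        linarith)
      linarith) (fun n _ hn => by
      have h8 : C0 / (1 + c1 * (n : ℝ) ^ 2) ≤ ζ / 2 := by
        rw [div_le_iff₀ (by positivity)]
        have h9 : Rn ≤ (n : ℝ) ^ 2 := by
          rw [← sq_abs]
          nlinarith
        have h10 : 2 * C0 / (c1 * ζ) ≤ (n : ℝ) ^ 2 := by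
          rw [hRn] at h9
          linarith
        rw [div_le_iff₀ (by positivity)] at h10
        nlinarith
      linarith)
  exact h6.trans (mul_le_mul_of_nonneg_left h7 (by norm_num))

end Pool.Agent.H189.ME2
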