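import Mathlib

/-! Windows of a finite measure from its Poisson transforms. -/

set_option autoImplicit false

open scoped BigOperators

namespace Pool.Agent.H189.ME2.MWIN

theorem kernel_int (m : MeasureTheory.Measure ℝ) [MeasureTheory.IsFiniteMeasure m] (e w : ℝ)
    (hw : 0 < w) : MeasureTheory.Integrable (fun E => w / ((E - e) ^ 2 + w ^ 2)) m := by
  have hpos : ∀ E : ℝ, 0 < (E - e) ^ 2 + w ^ 2 := fun E => by positivity
  have hcont : Continuous fun E : ℝ => w / ((E - e) ^ 2 + w ^ 2) :=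
    continuous_const.div (by fun_prop) fun E => (hpos E).ne'
  refine (MeasureTheory.integrable_const (w / w ^ 2)).mono' hcont.aestronglyMeasurable
    (Filter.Eventually.of_forall fun E => ?_)
  rw [Real.norm_eq_abs, abs_of_nonneg (div_nonneg hw.le (hpos E).le)]
  have h1 : w ^ 2 ≤ (E - e) ^ 2 + w ^ 2 := by nlinarith [sq_nonneg (E - e)]
  exact div_le_div_of_nonneg_left hw.le (by positivity) h1

theorem kernel_le (E e w : ℝ) (hw : 0 < w) :
    (w / 8) / ((E - e) ^ 2 + (w / 8) ^ 2) ≤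
      (Set.Icc (e - w) (e + w)).indicator (fun _ => 8 / w) E +
        (1 / 4) * (w / ((E - e) ^ 2 + w ^ 2)) := by
  have hp1 : 0 < (E - e) ^ 2 + w ^ 2 := by positivity
  have hp2 : 0 < (E - e) ^ 2 + (w / 8) ^ 2 := by positivity
  by_cases h : E ∈ Set.Icc (e - w) (e + w)
  · rw [Set.indicator_of_mem h]
    have h1 : (w / 8) / ((E - e) ^ 2 + (w / 8) ^ 2) ≤ (w / 8) / (w / 8) ^ 2 := by
      refine div_le_div_of_nonneg_left (by linarith) (by positivity) ?_
      nlinarith [sq_nonneg (E - e)]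
    have h2 : (w / 8) / (w / 8) ^ 2 = 8 / w := by
      field_simp
    have h3 : 0 ≤ (1 / 4) * (w / ((E - e) ^ 2 + w ^ 2)) := by positivity
    linarith
  · rw [Set.indicator_of_notMem h, zero_add]
    have hx : w ^ 2 ≤ (E - e) ^ 2 := by
      have h4 : ¬ (|E - e| ≤ w) := by
        intro h5
        rw [abs_le] at h5
        exact h ⟨by linarith [h5.1], by linarith [h5.2]⟩
      push Not at h4
      rw [← sq_abs (E - e)]
      exact pow_le_pow_left₀ hw.le h4.le 2
    have h6 : (1 / 4) * (w / ((E - e) ^ 2 + w ^ 2)) = (w / 4) / ((E - e) ^ 2 + w ^ 2) := by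
      ring
    rw [h6, div_le_div_iff₀ hp2 hp1]
    nlinarith

theorem mwin (m : MeasureTheory.Measure ℝ) [MeasureTheory.IsFiniteMeasure m] (e w G0 δ : ℝ) (hw : 0 < w) (hG : 0 ≤ G0) (hδ : δ ≤ G0 / 5)
    (h1 : ∫ E, w / ((E - e) ^ 2 + w ^ 2) ∂m ≤ G0 + δ)
    (h2 : G0 - δ ≤ ∫ E, (w / 8) / ((E - e) ^ 2 + (w / 8) ^ 2) ∂m) :
    G0 / 16 * w ≤ m.real (Set.Icc (e - w) (e + w)) := by
  have i1 := kernel_int m e w hw
  have i2 := kernel_int m e (w / 8) (by linarith)
  have i3 : MeasureTheory.Integrable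
      ((Set.Icc (e - w) (e + w)).indicator (fun _ : ℝ => 8 / w)) m :=
    (MeasureTheory.integrable_const (8 / w)).indicator measurableSet_Icc
  have h3 := MeasureTheory.integral_mono i2 (i3.add (i1.const_mul (1 / 4)))
    (fun E => kernel_le E e w hw)
  have h4 : ∫ E, ((Set.Icc (e - w) (e + w)).indicator (fun _ : ℝ => 8 / w) +
      (fun E : ℝ => (1 / 4) * (w / ((E - e) ^ 2 + w ^ 2))) : ℝ → ℝ) E ∂m =
      (∫ E, (Set.Icc (e - w) (e + w)).indicator (fun _ : ℝ => 8 / w) E ∂m) +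
        ∫ E, (1 / 4) * (w / ((E - e) ^ 2 + w ^ 2)) ∂m :=
    MeasureTheory.integral_add i3 (i1.const_mul (1 / 4))
  rw [h4, MeasureTheory.integral_indicator_const _ measurableSet_Icc,
    MeasureTheory.integral_const_mul, smul_eq_mul] at h3
  set M := m.real (Set.Icc (e - w) (e + w)) with hM
  have h5 : G0 - δ ≤ M * (8 / w) + 1 / 4 * (G0 + δ) := by
    have h6 : 1 / 4 * ∫ E, w / ((E - e) ^ 2 + w ^ 2) ∂m ≤ 1 / 4 * (G0 + δ) := by linarith
    linarith
  have h7 : G0 / 2 ≤ M * (8 / w) := by linarith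
  have h8 : M * (8 / w) * w = 8 * M := by
    field_simp
  have h9 : G0 / 2 * w ≤ M * (8 / w) * w := mul_le_mul_of_nonneg_right h7 hw.le
  linarith

theorem mlower (m : MeasureTheory.Measure ℝ) [MeasureTheory.IsFiniteMeasure m] (w A α β : ℝ) (hw : 0 < w) (hA : 0 ≤ A) (hαβ : α + 3 * w ≤ β)
    (h : ∀ e, α ≤ e → e ≤ β → A * w ≤ m.real (Set.Icc (e - w) (e + w))) :
    A / 6 * (β - α) ≤ m.real (Set.Icc α β) := by
  obtain ⟨n, hn⟩ : ∃ n : ℕ, n = ⌊(β - α) / (3 * w)⌋₊ := ⟨_, rfl⟩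
  have h1 : (n : ℝ) * (3 * w) ≤ β - α := by
    have h2 : (n : ℝ) ≤ (β - α) / (3 * w) := by
      rw [hn]
      exact Nat.floor_le (div_nonneg (by linarith) (by linarith))
    rwa [le_div_iff₀ (by linarith)] at h2
  have h3 : β - α ≤ (n + 1) * (3 * w) := by
    have h4 : (β - α) / (3 * w) < n + 1 := by
      rw [hn]
      exact Nat.lt_floor_add_one _
    rw [div_lt_iff₀ (by linarith)] at h4
    exact h4.le
  have h5 : (1 : ℝ) ≤ n := by
    have h6 : 1 ≤ n := by
      rw [hn]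
      refine Nat.le_floor ?_
      rw [le_div_iff₀ (by linarith)]
      push_cast
      linarith
    exact_mod_cast h6
  have h7 : β - α ≤ 6 * (n * w) := by nlinarith
  obtain ⟨S, hS⟩ : ∃ S : ℕ → Set ℝ, S = fun k : ℕ =>
    Set.Icc ((α + (3 * k + 3 / 2) * w) - w) ((α + (3 * k + 3 / 2) * w) + w) := ⟨_, rfl⟩
  have hdisj : (↑(Finset.range n) : Set ℕ).PairwiseDisjoint S := by
    intro k _ l _ hkl
    change Disjoint (S k) (S l)
    rw [Set.disjoint_left]
    intro j hj hj'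
    rw [hS, Set.mem_Icc] at hj hj'
    rcases Nat.lt_or_gt_of_ne hkl with hlt | hlt
    · have e3 : (k : ℝ) + 1 ≤ l := by exact_mod_cast hlt
      nlinarith [hj.1, hj.2, hj'.1, hj'.2]
    · have e3 : (l : ℝ) + 1 ≤ k := by exact_mod_cast hlt
      nlinarith [hj.1, hj.2, hj'.1, hj'.2]
  have hsub : (⋃ k ∈ Finset.range n, S k) ⊆ Set.Icc α β := by
    intro j hj
    simp only [Set.mem_iUnion] at hj
    obtain ⟨k, hk, hjk⟩ := hj
    rw [hS, Set.mem_Icc] at hjk
    have e3 : (k : ℝ) + 1 ≤ n := by exact_mod_cast Finset.mem_range.1 hk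
    have e4 : (0 : ℝ) ≤ k := Nat.cast_nonneg k
    refine ⟨?_, ?_⟩
    · nlinarith [hjk.1, hjk.2]
    · nlinarith [hjk.1, hjk.2]
  have hmeas := MeasureTheory.measureReal_mono (μ := m) hsub
  rw [MeasureTheory.measureReal_biUnion_finset hdisj
    (fun k _ => by rw [hS]; exact measurableSet_Icc)] at hmeas
  have h8 : (n : ℝ) * (A * w) ≤ ∑ k ∈ Finset.range n, m.real (S k) := by
    have h9 : ∑ k ∈ Finset.range n, (A * w) ≤ ∑ k ∈ Finset.range n, m.real (S k) := by
      refine Finset.sum_le_sum fun k hk => ?_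
      have e3 : (k : ℝ) + 1 ≤ n := by exact_mod_cast Finset.mem_range.1 hk
      have e4 : (0 : ℝ) ≤ k := Nat.cast_nonneg k
      rw [hS]
      exact h _ (by nlinarith) (by nlinarith)
    rw [Finset.sum_const, Finset.card_range, nsmul_eq_mul] at h9
    exact h9
  calc A / 6 * (β - α) ≤ A / 6 * (6 * (n * w)) := by gcongr
    _ = n * (A * w) := by ring
    _ ≤ _ := h8.trans hmeas

end Pool.Agent.H189.ME2.MWIN
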