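import Mathlib

set_option autoImplicit false

namespace Pool.Agent.H189.ME2.WSUM

open MeasureTheory intervalIntegral

theorem cont (E η : ℝ) (hη : 0 < η) : Continuous (fun e : ℝ => η / ((E - e) ^ 2 + η ^ 2)) := by
  apply Continuous.div continuous_const (by fun_prop)
  intro e
  positivity

theorem small (E η x y : ℝ) (hη : 0 < η) (hxy : y = x + η)
    (h : ∀ e, x ≤ e → e ≤ y → (E - e) ^ 2 ≤ η ^ 2) :
    1 / 2 ≤ ∫ e in x..y, η / ((E - e) ^ 2 + η ^ 2) := by
  have h1 : ∫ _ in x..y, (1 / (2 * η) : ℝ) = 1 / 2 := by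
    rw [intervalIntegral.integral_const, hxy, smul_eq_mul]
    field_simp
    ring
  rw [← h1]
  apply intervalIntegral.integral_mono_on (by linarith) (by simp)
    ((cont E η hη).intervalIntegrable _ _)
  intro e he
  have h2 := h e he.1 he.2
  rw [div_le_div_iff₀ (by positivity) (by positivity)]
  nlinarith

theorem big (E η α β : ℝ) (hη : 0 < η) (hαβ : 2 * η ≤ β - α) (h1 : α ≤ E) (h2 : E ≤ β) :
    1 / 2 ≤ ∫ e in α..β, η / ((E - e) ^ 2 + η ^ 2) := by
  have hpos : ∀ e, 0 ≤ η / ((E - e) ^ 2 + η ^ 2) := fun e => by positivity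
  rcases le_total (E + η) β with h | h
  · refine (small E η E (E + η) hη rfl ?_).trans ?_
    · intro e he1 he2
      nlinarith
    · exact intervalIntegral.integral_mono_interval h1 (by linarith) h
        (Filter.Eventually.of_forall hpos) ((cont E η hη).intervalIntegrable _ _)
  · refine (small E η (E - η) E hη (by ring) ?_).trans ?_
    · intro e he1 he2
      nlinarith
    · exact intervalIntegral.integral_mono_interval (by linarith) (by linarith) h2
        (Filter.Eventually.of_forall hpos) ((cont E η hη).intervalIntegrable _ _)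

theorem wsum {ι : Type} (s : Finset ι) (E p : ι → ℝ) (hp : ∀ j ∈ s, 0 ≤ p j) (η α β Q : ℝ) (hη : 0 < η) (hαβ : 2 * η ≤ β - α)
    (hE : ∀ j ∈ s, α ≤ E j ∧ E j ≤ β)
    (h : ∀ e, α ≤ e → e ≤ β → ∑ j ∈ s, p j * (η / ((E j - e) ^ 2 + η ^ 2)) ≤ Q) :
    ∑ j ∈ s, p j ≤ 2 * Q * (β - α) := by
  have h1 : ∫ e in α..β, ∑ j ∈ s, p j * (η / ((E j - e) ^ 2 + η ^ 2)) ≤ ∫ _ in α..β, Q := by
    apply intervalIntegral.integral_mono_on (by linarith) _ (by simp)
    · intro e he
      exact h e he.1 he.2
    · apply Continuous.intervalIntegrable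
      apply continuous_finsetSum
      intro j _
      exact continuous_const.mul (cont (E j) η hη)
  rw [intervalIntegral.integral_const, smul_eq_mul, intervalIntegral.integral_finsetSum] at h1
  · have h2 : ∑ j ∈ s, p j * (1 / 2) ≤
        ∑ j ∈ s, ∫ e in α..β, p j * (η / ((E j - e) ^ 2 + η ^ 2)) := by
      apply Finset.sum_le_sum
      intro j hj
      rw [intervalIntegral.integral_const_mul]
      exact mul_le_mul_of_nonneg_left (big (E j) η α β hη hαβ (hE j hj).1 (hE j hj).2) (hp j hj)
    rw [← Finset.sum_mul] at h2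
    nlinarith
  · intro j _
    exact (continuous_const.mul (cont (E j) η hη)).intervalIntegrable _ _

end Pool.Agent.H189.ME2.WSUM

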