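import Pool.Agent.H189.ME2.Inf
import Pool.Agent.H189.ME2.WSum
import Pool.Agent.H189.ME2.MWin
import Pool.Agent.H189.W.Loc2
import Pool.Agent.H189.U.Dom

/-! Energy windows in infinite volume: the spectral measures are large, the localised
eigenfunctions carry little. -/

set_option autoImplicit false
set_option linter.unusedVariables false

open scoped BigOperators ComplexConjugate Topology
open Set MeasureTheory Filter

namespace Pool.Agent.H189.ME2

open Pool.Agent.R988 Pool.Agent.R988.Tor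
open Pool.Agent.H4R2.LO (Zd)
open Pool.Agent.TH794.HK (ph Tg)
open Pool.Agent.TH794.QE (Rs RegE)

/-- the Ward identity -/
theorem ward {d : ℕ} {V : (Fin d → ℤ) → ℝ} {a : Fin d → ℤ} {e η : ℝ} {u : (Fin d → ℤ) → ℂ}
    (h : Pool.Agent.TH794.QE.Rs d V a e η u) : η * ∑' x, ‖u x‖ ^ 2 = (u a).im := by
  obtain ⟨s1, s2, e1⟩ := Pool.Agent.W788.LD.Spec.symm u u h.sq h.sq
  have h0 : (∑' x, conj (u x) * Pool.Agent.W788.LD.Spec.S u x).im = 0 := by
    have h2 : ∑' x, conj (Pool.Agent.W788.LD.Spec.S u x) * u x =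
        conj (∑' x, conj (u x) * Pool.Agent.W788.LD.Spec.S u x) := by
      rw [Complex.conj_tsum]
      exact tsum_congr fun x => by
        rw [map_mul, Complex.conj_conj, mul_comm]
    rw [h2] at e1
    exact Complex.conj_eq_iff_im.1 e1.symm
  have hsi : Summable fun x => (conj (u x) * Pool.Agent.W788.LD.Spec.S u x).im :=
    (Complex.hasSum_im s1.hasSum).summable
  have hpt : ∀ x, η * ‖u x‖ ^ 2 = (if x = a then (u a).im else 0) -
      (conj (u x) * Pool.Agent.W788.LD.Spec.S u x).im := by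
    intro x
    have h1 : (conj (u x) * (-Pool.Agent.W788.LD.Spec.S u x + (V x : ℂ) * u x -
        ((e : ℂ) + (η : ℂ) * Complex.I) * u x)).im =
        (conj (u x) * (if x = a then (1 : ℂ) else 0)).im := by rw [h.eq x]
    have h2 : conj (u x) * (-Pool.Agent.W788.LD.Spec.S u x + (V x : ℂ) * u x -
        ((e : ℂ) + (η : ℂ) * Complex.I) * u x) =
        -(conj (u x) * Pool.Agent.W788.LD.Spec.S u x) + (((V x - e) * ‖u x‖ ^ 2 : ℝ) : ℂ) -
          (((η * ‖u x‖ ^ 2 : ℝ) : ℂ)) * Complex.I := by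
      have h3 : ((‖u x‖ ^ 2 : ℝ) : ℂ) = conj (u x) * u x := by
        rw [mul_comm, Complex.mul_conj, Complex.normSq_eq_norm_sq]
      rw [Complex.ofReal_mul, Complex.ofReal_mul, h3]
      push_cast
      ring
    rw [h2] at h1
    have h4 : (conj (u x) * (if x = a then (1 : ℂ) else 0)).im =
        -(if x = a then (u a).im else 0) := by
      split_ifs with hx
      · rw [mul_one, Complex.conj_im, hx]
      · simp
    rw [h4] at h1
    simp only [Complex.sub_im, Complex.add_im, Complex.neg_im, Complex.ofReal_im, Complex.mul_im,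
      Complex.ofReal_re, Complex.I_im, Complex.I_re, mul_one, mul_zero, add_zero] at h1 ⊢
    linarith
  rw [← tsum_mul_left]
  simp only [hpt]
  have hs5 : Summable fun x : Fin d → ℤ => (if x = a then (u a).im else (0 : ℝ)) :=
    (hasSum_ite_eq a (u a).im).summable
  rw [hs5.tsum_sub hsi, tsum_ite_eq]
  have h5 := (Complex.hasSum_im s1.hasSum).tsum_eq
  rw [h5, h0, sub_zero]


theorem lwin (d : ℕ) (hd : 2 ≤ d) (κ : ℝ) (hκ : 0 < κ) (hκ1 : κ ≤ 1) : ∃ m1 : ℝ, 0 < m1 ∧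
    ∀ b v δ : ℝ, 0 < b → 0 < v → 0 < δ → ∃ lam0 : ℝ, 0 < lam0 ∧ lam0 ≤ 1 ∧
      ∀ (μ : Measure ℝ), IsProbabilityMeasure μ → (∀ᵐ s ∂μ, |s| ≤ b) →
      ∀ M V : ℝ, ∫ s, s ∂μ = M → ∫ s, (s - M) ^ 2 ∂μ = V → v ≤ V →
      ∀ lam : ℝ, 0 < lam → lam ≤ lam0 →
      ∃ G : Set (Zd d → ℝ), MeasurableSet G ∧
        1 - Real.exp (-lam ^ (-(1 / 101) : ℝ)) ≤
          (Measure.infinitePi fun _ : Zd d => μ).real G ∧
        ∀ ω ∈ G, ∀ a : Zd d, ‖a‖ ≤ Real.exp (lam ^ (-(1 / 101) : ℝ)) →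
        ∀ α β : ℝ, (∀ e, α ≤ e → e ≤ β → Bk d κ (2 * d + lam * M - e)) →
          α + lam ^ (2 + 1 / 50 : ℝ) ≤ β →
          (∀ m : Measure ℝ, IsFiniteMeasure m → (∀ e η : ℝ, 0 < η →
            ∃ u, Rs d (fun x => 2 * d + lam * ω x) a e η u ∧
              ∫ E, η / ((E - e) ^ 2 + η ^ 2) ∂m = (u a).im) →
            m1 * (β - α) ≤ m.real (Icc α β)) ∧
          (∀ (ι : Type) (s : Finset ι) (u : ι → Zd d → ℂ) (c : ι → Zd d) (E : ι → ℝ),
            Pool.Agent.H189.W.ELoc s u c (Real.exp (lam ^ (-(1 / 1000) : ℝ)))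
              (lam ^ (-(2 + 1 / 100) : ℝ)) →
            (∀ j ∈ s, α ≤ E j ∧ E j ≤ β) →
            (∀ j ∈ s, ∀ x, -Pool.Agent.W788.LD.Spec.S (u j) x +
              ((2 * d + lam * ω x : ℝ) : ℂ) * u j x = (E j : ℂ) * u j x) →
            ∑ j ∈ s, ‖u j a‖ ^ 2 ≤ δ * (β - α)) := by
  have hd2 : (2 : ℝ) ≤ d := by exact_mod_cast hd
  have hπ3 := Real.pi_gt_three
  obtain ⟨γ0, γ1, hbase⟩ := base d hd
  obtain ⟨h1, ⟨m1, hm1, h2⟩, h3⟩ := hbase κ hκ hκ1
  obtain ⟨C0, hC0, hup⟩ := up d hd κ hκ hκ1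
  refine ⟨m1 / 96, by positivity, fun b v δ hb hv hδ => ?_⟩
  obtain ⟨θ, hθd⟩ : ∃ θ, θ = δ / 4 := ⟨_, rfl⟩
  have hθ : 0 < θ := by rw [hθd]; positivity
  obtain ⟨ζ, hζd⟩ : ∃ ζ, ζ = θ / 8 := ⟨_, rfl⟩
  have hζ : 0 < ζ := by rw [hζd]; positivity
  obtain ⟨Rn, hRn⟩ : ∃ Rn, Rn = 1 + 2 * C0 / (m1 / C0 ^ 2 * ζ) := ⟨_, rfl⟩
  have hRn1 : 1 ≤ Rn := by
    rw [hRn]
    have : 0 ≤ 2 * C0 / (m1 / C0 ^ 2 * ζ) := by positivity
    linarith
  obtain ⟨m, hm⟩ := exists_nat_gt (8 * (C0 + 1) * (2 * Rn + 1) / θ)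
  obtain ⟨c0, hc0, h4⟩ := h3 b v ((m : ℝ) ^ 2) hb hv (by positivity)
  obtain ⟨l1, hl1, hl11, hnum⟩ := ev_extract
    ((ev1 (2 * b * m) (1 / 720) (by norm_num)).and
    ((ev1 (2 / ζ) (1 / 200) (by norm_num)).and
    ((ev1 32 (1 / 9000) (by norm_num)).and
    ((ev1 8 (1 / 900 - 1 / 950) (by norm_num)).and
    ((Pool.Agent.H189.U.exp_dom (8 * (10 * d) ^ (3 * d) / θ) (201 / 100 * (3 * d) + 81 / 40)
      (1 / 950) (by norm_num)).and
    ((ev1 (10 / m1) (1 / 200) (by norm_num)).and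
    ((ev1 8 (1 / 1000) (by norm_num)).and
    (ev1 3 (1 / 250) (by norm_num)))))))))
  refine ⟨min l1 c0, lt_min hl1 hc0, (min_le_left _ _).trans hl11, ?_⟩
  intro μ hμp hμb M V hM hV hvV lam hlam hlam0
  have hV4 := Pool.Agent.H189.Loc.var_le b hb μ hμb M V hM hV
  have hlam1 : lam ≤ 1 := (hlam0.trans (min_le_left _ _)).trans hl11
  obtain ⟨n1, n2, n3, n4, n5, n6, n7, n8⟩ := hnum lam hlam (hlam0.trans (min_le_left _ _))
  obtain ⟨G, hG, hP, hGp⟩ := h4 lam hlam (hlam0.trans (min_le_right _ _)) μ hμp hμb M V hM hV hvV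
  have hadd : ∀ p q : ℝ, lam ^ p * lam ^ q = lam ^ (p + q) := fun p q =>
    (Real.rpow_add hlam p q).symm
  have hpos : ∀ p : ℝ, 0 < lam ^ p := fun p => Real.rpow_pos_of_pos hlam p
  have hone : ∀ p : ℝ, 0 ≤ p → 1 ≤ lam ^ (-p) := fun p hp =>
    Real.one_le_rpow_of_pos_of_le_one_of_nonpos hlam hlam1 (by linarith)
  have hV0 : 0 < V := by linarith
  refine ⟨G, hG, hP, fun ω hω a ha α β hαe hαβ => ?_⟩
  obtain ⟨hωb, hGe⟩ := hGp ω hω
  have hK : ∀ x, |2 * (d : ℝ) + lam * ω x| ≤ 2 * d + lam * b := fun x => by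
    refine (abs_add_le _ _).trans ?_
    rw [abs_of_nonneg (by positivity : (0 : ℝ) ≤ 2 * d), abs_mul, abs_of_pos hlam]
    have := mul_le_mul_of_nonneg_left (hωb x) hlam.le
    linarith
  constructor
  · -- the spectral measure
    intro ms hms hmi
    obtain ⟨w, hw⟩ : ∃ w, w = lam ^ (253 / 125 : ℝ) := ⟨_, rfl⟩
    have hw0 : 0 < w := by rw [hw]; exact hpos _
    have hw3 : 3 * w ≤ β - α := by
      have q2 : w = lam ^ (1 / 250 : ℝ) * lam ^ (2 + 1 / 50 : ℝ) := by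
        rw [hw, hadd]
        norm_num
      have q3 : 3 * w ≤ lam ^ (2 + 1 / 50 : ℝ) := by
        rw [q2, ← mul_assoc]
        exact mul_le_of_le_one_left (hpos _).le n8
      linarith
    have hηr : ∀ η : ℝ, η = w ∨ η = w / 8 → lam ^ (81 / 40 : ℝ) ≤ η ∧ η ≤ lam ^ (161 / 80 : ℝ) := by
      intro η hη
      have q1 : lam ^ (81 / 40 : ℝ) ≤ w / 8 := by
        have q2 : lam ^ (81 / 40 : ℝ) = lam ^ (1 / 1000 : ℝ) * w := by
          rw [hw, hadd]
          norm_num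
        rw [q2]
        nlinarith
      have q3 : w ≤ lam ^ (161 / 80 : ℝ) := by
        rw [hw]
        exact Real.rpow_le_rpow_of_exponent_ge hlam hlam1 (by norm_num)
      rcases hη with hη | hη
      · rw [hη]
        exact ⟨by linarith, q3⟩
      · rw [hη]
        exact ⟨q1, by linarith⟩
    have hb2 : lam ^ (1 / 200 : ℝ) ≤ m1 / 10 := by
      have : 10 / m1 * lam ^ (1 / 200 : ℝ) = lam ^ (1 / 200 : ℝ) / (m1 / 10) := by
        field_simp
      rw [this, div_le_one (by positivity)] at n6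
      exact n6
    have hlaw : ∀ e, α ≤ e → e ≤ β → ∀ η : ℝ, η = w ∨ η = w / 8 →
        |∫ E, η / ((E - e) ^ 2 + η ^ 2) ∂ms - (γ0 (2 * d + lam * M - e)).im| ≤
          lam ^ (1 / 200 : ℝ) := by
      intro e he1 he2 η hη
      obtain ⟨q1, q2⟩ := hηr η hη
      have hη0 : 0 < η := lt_of_lt_of_le (hpos _) q1
      obtain ⟨u, hu, hui⟩ := hmi e η hη0
      have h5 := hGe a ha e (hαe e he1 he2) η q1 q2 u hu (fun _ => 0) (by
        simp only [ne_eq, OfNat.ofNat_ne_zero, not_false_eq_true, zero_pow, Finset.sum_const_zero]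
        positivity)
      have e1 : ((η : ℂ) * ∑' x : Zd d, ph (fun _ => (0 : ℝ)) (x - a) * ((‖u x‖ ^ 2 : ℝ) : ℂ)) =
          ((η * ∑' x, ‖u x‖ ^ 2 : ℝ) : ℂ) := by
        rw [Complex.ofReal_mul, Complex.ofReal_tsum]
        congr 1
        refine tsum_congr fun x => ?_
        unfold ph
        simp
      have e2 : Tg γ0 γ1 η (lam ^ 2 * V) (2 * d + lam * M - e) (fun _ : Fin d => (0 : ℝ)) =
          (γ0 (2 * d + lam * M - e)).im := by
        unfold Tg
        simp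
      rw [e1, e2, ← Complex.ofReal_sub, Complex.norm_real, Real.norm_eq_abs, ward hu, ← hui] at h5
      exact h5
    have hwin : ∀ e, α ≤ e → e ≤ β → m1 / 16 * w ≤ ms.real (Icc (e - w) (e + w)) := by
      intro e he1 he2
      have hbk := hαe e he1 he2
      obtain ⟨hl0, hl1', hg1, hg10⟩ := h1 _ hbk.1
      have hmm := h2 _ hbk.1 hbk.2
      have q1 := abs_le.1 (hlaw e he1 he2 w (Or.inl rfl))
      have q2 := abs_le.1 (hlaw e he1 he2 (w / 8) (Or.inr rfl))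
      have q3 := MWIN.mwin ms e w (γ0 (2 * d + lam * M - e)).im (lam ^ (1 / 200 : ℝ)) hw0
        (by linarith) (by linarith) (by linarith [q1.2]) (by linarith [q2.1])
      refine le_trans ?_ q3
      have : m1 ≤ (γ0 (2 * d + lam * M - e)).im := by linarith
      gcongr
    have hfin := MWIN.mlower ms w (m1 / 16) α β hw0 (by positivity) (by linarith) hwin
    refine le_trans (le_of_eq ?_) hfin
    ring
  · -- the localised eigenfunctions
    intro ι s u c E hfam hE heig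
    obtain ⟨A, hA⟩ : ∃ A, A = Real.exp (lam ^ (-(1 / 1000) : ℝ)) := ⟨_, rfl⟩
    obtain ⟨ℓ, hℓ⟩ : ∃ ℓ, ℓ = lam ^ (-(2 + 1 / 100) : ℝ) := ⟨_, rfl⟩
    rw [← hA, ← hℓ] at hfam
    have hA1 : 1 ≤ A := by
      rw [hA]
      exact Real.one_le_exp (hpos _).le
    have hℓ1 : 1 ≤ ℓ := by rw [hℓ]; exact hone _ (by norm_num)
    obtain ⟨η, hη⟩ : ∃ η, η = lam ^ (81 / 40 : ℝ) := ⟨_, rfl⟩
    have hη0 : 0 < η := by rw [hη]; exact hpos _
    obtain ⟨R, hR⟩ : ∃ R, R = lam ^ (-(2 + 1 / 90) : ℝ) := ⟨_, rfl⟩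
    have hR0 : 0 < R := by rw [hR]; exact hpos _
    have hζl : lam ^ (1 / 200 : ℝ) ≤ ζ / 2 := by
      rw [div_mul_eq_mul_div, div_le_one hζ] at n2
      linarith
    have hζ1 : lam ^ (1 / 200 : ℝ) ≤ 1 := Real.rpow_le_one hlam.le hlam1 (by norm_num)
    -- the mass of the ball
    obtain ⟨i⟩ : Nonempty (Fin d) := ⟨⟨0, by omega⟩⟩
    have hrb : Real.sqrt (η * (lam ^ 2 * V)) ≤ 2 * b * lam ^ (2 + 1 / 80 : ℝ) := by
      refine Real.sqrt_le_iff.2 ⟨by positivity, ?_⟩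
      have e1 : (2 * b * lam ^ (2 + 1 / 80 : ℝ)) ^ 2 = lam ^ (81 / 40 : ℝ) * lam ^ 2 *
          (4 * b ^ 2) := by
        rw [mul_pow, ← Real.rpow_natCast (lam ^ (2 + 1 / 80 : ℝ)), ← Real.rpow_mul hlam.le,
          ← Real.rpow_natCast lam, hadd]
        norm_num
        ring
      rw [e1, hη, mul_assoc (lam ^ (81 / 40 : ℝ))]
      gcongr
    have hrm : Real.sqrt (η * (lam ^ 2 * V)) * m * R ≤ Real.pi / 3 := by
      have e1 : lam ^ (2 + 1 / 80 : ℝ) * R = lam ^ (1 / 720 : ℝ) := by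
        rw [hR, hadd]
        norm_num
      calc Real.sqrt (η * (lam ^ 2 * V)) * m * R ≤ 2 * b * lam ^ (2 + 1 / 80 : ℝ) * m * R := by
            gcongr
        _ = 2 * b * m * lam ^ (1 / 720 : ℝ) := by rw [← e1]; ring
        _ ≤ 1 := n1
        _ ≤ Real.pi / 3 := by linarith
    have hball : ∀ e, α ≤ e → e ≤ β → ∀ g : Zd d → ℂ,
        Rs d (fun x => 2 * d + lam * ω x) a e η g →
        η * ∑' x, (if ‖x - a‖ ≤ R then ‖g x‖ ^ 2 else 0) ≤ θ := by
      intro e he1 he2 g hg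
      have hbk := hαe e he1 he2
      obtain ⟨hl0, hl1', hg1, hg10⟩ := h1 _ hbk.1
      have hmm := h2 _ hbk.1 hbk.2
      have hC := hup _ _ hbk.1 hl0
      have q := ball_mass i a g hg.sq γ0 γ1 (2 * d + lam * M - e) η (lam ^ 2 * V) m1 C0
        (lam ^ (1 / 200 : ℝ)) hη0 (by positivity) m R Rn ζ hm1 hC0 hmm hg10
        ((Complex.im_le_norm _).trans hC) hζ1 hζ hζl hR0.le hrm hRn (fun p hp =>
          hGe a ha e hbk η (le_of_eq hη.symm) (by
            rw [hη]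
            exact Real.rpow_le_rpow_of_exponent_ge hlam hlam1 (by norm_num)) g hg p hp)
      refine q.trans ?_
      have h8 : (C0 + 1) * ((2 * Rn + 1) / (m + 1)) ≤ θ / 8 := by
        rw [div_lt_iff₀ hθ] at hm
        rw [mul_div_assoc', div_le_iff₀ (by positivity)]
        nlinarith
      rw [hζd]
      linarith
    -- the tails
    have htail : 8 * A ^ 4 * (2 * (1 + 4 * d * ℓ)) ^ (3 * d) * Real.exp (-(R / (4 * ℓ))) * η⁻¹ ≤
        θ := by
      have e1 : R / (4 * ℓ) = lam ^ (-(1 / 900) : ℝ) / 4 := by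
        have : R = lam ^ (-(1 / 900) : ℝ) * ℓ := by
          rw [hR, hℓ, hadd]
          norm_num
        rw [this]
        have : ℓ ≠ 0 := by positivity
        field_simp
      have e2 : 4 * lam ^ (-(1 / 1000) : ℝ) ≤ lam ^ (-(1 / 900) : ℝ) / 8 := by
        have : lam ^ (-(1 / 1000) : ℝ) = lam ^ (1 / 9000 : ℝ) * lam ^ (-(1 / 900) : ℝ) := by
          rw [hadd]
          norm_num
        rw [this]
        have := mul_le_mul_of_nonneg_right n3 (hpos (-(1 / 900))).le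
        linarith
      have e3 : lam ^ (-(1 / 950) : ℝ) ≤ lam ^ (-(1 / 900) : ℝ) / 8 := by
        have : lam ^ (-(1 / 950) : ℝ) = lam ^ (1 / 900 - 1 / 950 : ℝ) *
            lam ^ (-(1 / 900) : ℝ) := by
          rw [hadd]
          norm_num
        rw [this]
        have := mul_le_mul_of_nonneg_right n4 (hpos (-(1 / 900))).le
        linarith
      have e4 : A ^ 4 * Real.exp (-(R / (4 * ℓ))) ≤ Real.exp (-lam ^ (-(1 / 950) : ℝ)) := by
        rw [hA, ← Real.exp_nat_mul, ← Real.exp_add, e1]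
        refine Real.exp_le_exp.2 ?_
        push_cast
        linarith
      have e5 : (2 * (1 + 4 * d * ℓ)) ^ (3 * d) ≤ (10 * d) ^ (3 * d) * ℓ ^ (3 * d) := by
        rw [← mul_pow]
        refine pow_le_pow_left₀ (by positivity) ?_ _
        have : (1 : ℝ) ≤ d * ℓ := by nlinarith
        nlinarith
      have e6 : ℓ ^ (3 * d) * η⁻¹ = lam ^ (-(201 / 100 * (3 * d) + 81 / 40) : ℝ) := by
        rw [hℓ, hη, ← Real.rpow_natCast, ← Real.rpow_mul hlam.le, ← Real.rpow_neg hlam.le, hadd]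
        congr 1
        push_cast
        ring
      have e7 : 8 * A ^ 4 * (2 * (1 + 4 * d * ℓ)) ^ (3 * d) * Real.exp (-(R / (4 * ℓ))) * η⁻¹ ≤
          8 * ((10 * d) ^ (3 * d) * (ℓ ^ (3 * d) * η⁻¹)) *
            Real.exp (-lam ^ (-(1 / 950) : ℝ)) := by
        calc 8 * A ^ 4 * (2 * (1 + 4 * d * ℓ)) ^ (3 * d) * Real.exp (-(R / (4 * ℓ))) * η⁻¹ =
            8 * (((2 * (1 + 4 * d * ℓ)) ^ (3 * d)) * η⁻¹) *
              (A ^ 4 * Real.exp (-(R / (4 * ℓ)))) := by ring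
          _ ≤ 8 * (((10 * d) ^ (3 * d) * ℓ ^ (3 * d)) * η⁻¹) *
              Real.exp (-lam ^ (-(1 / 950) : ℝ)) := by gcongr
          _ = _ := by ring
      refine e7.trans ?_
      rw [e6, Real.exp_neg, ← div_eq_mul_inv, div_le_iff₀ (Real.exp_pos _)]
      have e8 := mul_le_mul_of_nonneg_left n5 hθ.le
      refine le_trans (le_of_eq ?_) e8
      field_simp
    have hη2 : 2 * η ≤ β - α := by
      have q2 : η = lam ^ (1 / 1000 : ℝ) * (lam ^ (1 / 250 : ℝ) * lam ^ (2 + 1 / 50 : ℝ)) := by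
        rw [hη, hadd, hadd]
        norm_num
      have q3 : 0 < lam ^ (2 + 1 / 50 : ℝ) := hpos _
      have q4 : 2 * η ≤ lam ^ (2 + 1 / 50 : ℝ) := by
        rw [q2]
        have q5 : lam ^ (1 / 1000 : ℝ) ≤ 1 / 8 := by linarith
        have q6 : lam ^ (1 / 250 : ℝ) ≤ 1 := Real.rpow_le_one hlam.le hlam1 (by norm_num)
        have q7 : lam ^ (1 / 1000 : ℝ) * (lam ^ (1 / 250 : ℝ) * lam ^ (2 + 1 / 50 : ℝ)) ≤
            1 / 8 * (1 * lam ^ (2 + 1 / 50 : ℝ)) := by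
          have := hpos (1 / 250)
          gcongr
        linarith
      linarith
    have hsum := WSUM.wsum s E (fun j => ‖u j a‖ ^ 2) (fun j _ => by positivity) η α β (2 * θ)
      hη0 hη2 hE (fun e he1 he2 => by
        obtain ⟨g, hg⟩ := Pool.Agent.TH794.QE.rs_exists (fun x => 2 * (d : ℝ) + lam * ω x) _ hK a
          e η hη0
        have h5 := hfam.low_ball (by omega) hA1 hℓ1 hg hη0 E heig R
        have h6 := mul_le_mul_of_nonneg_left h5 hη0.le
        have h7 := hball e he1 he2 g hg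
        have h8 : η * (8 * A ^ 4 * (2 * (1 + 4 * d * ℓ)) ^ (3 * d) * Real.exp (-(R / (4 * ℓ))) *
            (η⁻¹) ^ 2) = 8 * A ^ 4 * (2 * (1 + 4 * d * ℓ)) ^ (3 * d) *
              Real.exp (-(R / (4 * ℓ))) * η⁻¹ := by
          field_simp
        rw [mul_add, h8] at h6
        have h9 : ∑ j ∈ s, ‖u j a‖ ^ 2 * (η / ((E j - e) ^ 2 + η ^ 2)) =
            η * Pool.Agent.H189.W.wgt s u E a e η := by
          unfold Pool.Agent.H189.W.wgt
          rw [Finset.mul_sum]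
          exact Finset.sum_congr rfl fun j _ => by ring
        rw [h9]
        linarith)
    refine hsum.trans (le_of_eq ?_)
    rw [hθd]
    ring

end Pool.Agent.H189.ME2
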