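import Pool.Agent.H189.ME2.LW
import Pool.Agent.H189.W.Ldos
import Pool.Agent.H189.W.Dos

/-! Energy windows in infinite volume: the local density of states and the localised
eigenfunctions, in every dimension `d ≥ 2`. -/

set_option autoImplicit false
set_option linter.unusedVariables false

open scoped BigOperators ComplexConjugate Topology
open Set MeasureTheory Filter

namespace Pool.Agent.H189.ME2

open Pool.Agent.R988 Pool.Agent.R988.Tor
open Pool.Agent.H4R2.LO (Zd)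
open Pool.Agent.TH794.HK (ph Tg)
open Pool.Agent.TH794.QE (Rs RegE)
open Pool.Agent.TH794.QD (GF F0 F1)

/-- the conclusion of `base` -/
def BP (d : ℕ) (γ0 γ1 : ℝ → ℂ) : Prop := ∀ κ : ℝ, 0 < κ → κ ≤ 1 →
    (∀ E, RegE d κ E →
      Tendsto (fun t : ℝ => GF (F0 d) ((E : ℂ) + (t : ℂ) * Complex.I)) (𝓝[>] 0) (𝓝 (γ0 E)) ∧
      Tendsto (fun t : ℝ => GF (F1 d) ((E : ℂ) + (t : ℂ) * Complex.I)) (𝓝[>] 0) (𝓝 (γ1 E)) ∧
      0 ≤ (γ1 E).im ∧ (γ1 E).im ≤ (γ0 E).im) ∧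
    (∃ m : ℝ, 0 < m ∧ ∀ E, RegE d κ E → |E| ≤ 2 * d - κ → m ≤ (γ1 E).im) ∧
    ∀ b v K : ℝ, 0 < b → 0 < v → 0 ≤ K → ∃ c0 : ℝ, 0 < c0 ∧ ∀ c : ℝ, 0 < c → c ≤ c0 →
    ∀ (μ : Measure ℝ), IsProbabilityMeasure μ → (∀ᵐ s ∂μ, |s| ≤ b) →
    ∀ Mn V : ℝ, ∫ s, s ∂μ = Mn → ∫ s, (s - Mn) ^ 2 ∂μ = V → v ≤ V →
      ∃ G : Set (Zd d → ℝ), MeasurableSet G ∧
        1 - Real.exp (-c ^ (-(1 / 101) : ℝ)) ≤
          (Measure.infinitePi fun _ : Zd d => μ).real G ∧
        ∀ ω ∈ G, (∀ x, |ω x| ≤ b) ∧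
          ∀ a : Zd d, ‖a‖ ≤ Real.exp (c ^ (-(1 / 101) : ℝ)) →
          ∀ e : ℝ, (RegE d κ (2 * d + c * Mn - e) ∧ |2 * (d : ℝ) + c * Mn - e| ≤ 2 * d - κ) →
          ∀ η : ℝ, c ^ (81 / 40 : ℝ) ≤ η → η ≤ c ^ (161 / 80 : ℝ) →
          ∀ u : Zd d → ℂ, Rs d (fun x => 2 * d + c * ω x) a e η u →
          ∀ p : Fin d → ℝ, ∑ i, p i ^ 2 ≤ K * (η * (c ^ 2 * V)) →
            ‖((η : ℝ) : ℂ) * ∑' x, ph p (x - a) * ((‖u x‖ ^ 2 : ℝ) : ℂ) -
              ((Tg γ0 γ1 η (c ^ 2 * V) (2 * d + c * Mn - e) p : ℝ) : ℂ)‖ ≤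
              c ^ (1 / 200 : ℝ)

theorem bp (d : ℕ) (hd : 2 ≤ d) : ∃ γ0 γ1 : ℝ → ℂ, BP d γ0 γ1 := base d hd

theorem BP.cont {d : ℕ} {γ0 γ1 : ℝ → ℂ} (h : BP d γ0 γ1) (hd : 2 ≤ d) (κ : ℝ) (hκ : 0 < κ)
    (hκ1 : κ ≤ 1) : ContinuousOn (fun E => (γ0 E).im) {E | Bk d κ E} := by
  rcases Nat.lt_or_ge 2 d with h3 | h3
  · have hc := Pool.Agent.H189.W.g0_cont d h3
    refine hc.continuousOn.congr fun E hE => ?_
    have hR : RegE d κ E := hE.1
    have e1 := tendsto_nhds_unique ((h κ hκ hκ1).1 E hR).1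
      (Pool.Agent.TH794.QE.lim3 _ _
        (Pool.Agent.TH794.QD.hol0 Pool.Agent.W918.BK.Osc.osc d h3) E)
    simp only
    rw [e1]
  · have hd2 : d = 2 := le_antisymm h3 hd
    have hc := (cont_bulk d hd2 κ hκ hκ1 γ0 γ1 fun E hE =>
      ⟨((h κ hκ hκ1).1 E hE).1, ((h κ hκ hκ1).1 E hE).2.1⟩).1
    exact (Complex.continuous_im.comp_continuousOn hc).mono fun E hE => hE.1

theorem lwin2 (d : ℕ) (hd : 2 ≤ d) (γ0 γ1 : ℝ → ℂ) (hbase : BP d γ0 γ1) (κ : ℝ) (hκ : 0 < κ)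
    (hκ1 : κ ≤ 1) : ∃ m1 : ℝ, 0 < m1 ∧
    ∀ b v δ : ℝ, 0 < b → 0 < v → 0 < δ → ∃ lam0 : ℝ, 0 < lam0 ∧ lam0 ≤ 1 ∧
      ∀ (μ : Measure ℝ), IsProbabilityMeasure μ → (∀ᵐ s ∂μ, |s| ≤ b) →
      ∀ M V : ℝ, ∫ s, s ∂μ = M → ∫ s, (s - M) ^ 2 ∂μ = V → v ≤ V →
      ∀ lam : ℝ, 0 < lam → lam ≤ lam0 →
      ∃ G : Set (Zd d → ℝ), MeasurableSet G ∧
        1 - Real.exp (-lam ^ (-(1 / 101) : ℝ)) ≤
          (Measure.infinitePi fun _ : Zd d => μ).real G ∧
        ∀ ω ∈ G, ∀ a : Zd d, ‖a‖ ≤ Real.exp (lam ^ (-(1 / 101) : ℝ)) →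
        (∀ e : ℝ, Bk d κ (2 * d + lam * M - e) → ∀ η : ℝ, lam ^ (81 / 40 : ℝ) ≤ η →
          η ≤ lam ^ (161 / 80 : ℝ) → ∀ u, Rs d (fun x => 2 * d + lam * ω x) a e η u →
          |(u a).im - (γ0 (2 * d + lam * M - e)).im| ≤ lam ^ (1 / 200 : ℝ)) ∧
        ∀ α β : ℝ, (∀ e, α ≤ e → e ≤ β → Bk d κ (2 * d + lam * M - e)) →
          α + lam ^ (2 + 1 / 50 : ℝ) ≤ β →
          (∀ m : Measure ℝ, IsFiniteMeasure m → (∀ e η : ℝ, 0 < η →
            ∃ u, Rs d (fun x => 2 * d + lam * ω x) a e η u ∧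
              ∫ E, η / ((E - e) ^ 2 + η ^ 2) ∂m = (u a).im) →
            m1 * (β - α) ≤ m.real (Icc α β)) ∧
          (∀ (ι : Type) (s : Finset ι) (u : ι → Zd d → ℂ) (c : ι → Zd d) (E : ι → ℝ),
            Pool.Agent.H189.W.ELoc s u c (Real.exp (lam ^ (-(1 / 1000) : ℝ)))
              (lam ^ (-(2 + 1 / 100) : ℝ)) →
            (∀ j ∈ s, α ≤ E j ∧ E j ≤ β) →
            (∀ j ∈ s, ∀ x, -Pool.Agent.W788.LD.Spec.S (u j) x +
              ((2 * d + lam * ω x : ℝ) : ℂ) * u j x = (E j : ℂ) * u j x) →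
            ∑ j ∈ s, ‖u j a‖ ^ 2 ≤ δ * (β - α)) := by
  have hd2 : (2 : ℝ) ≤ d := by exact_mod_cast hd
  have hπ3 := Real.pi_gt_three
  obtain ⟨h1, ⟨m1, hm1, h2⟩, h3⟩ := hbase κ hκ hκ1
  obtain ⟨C0, hC0, hup⟩ := up d hd κ hκ hκ1
  refine ⟨m1 / 96, by positivity, fun b v δ hb hv hδ => ?_⟩
  obtain ⟨θ, hθd⟩ : ∃ θ, θ = δ / 4 := ⟨_, rfl⟩
  have hθ : 0 < θ := by rw [hθd]; positivity
  obtain ⟨ζ, hζd⟩ : ∃ ζ, ζ = θ / 8 := ⟨_, rfl⟩
  have hζ : 0 < ζ := by rw [hζd]; positivity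
  obtain ⟨Rn, hRn⟩ : ∃ Rn, Rn = 1 + 2 * C0 / (m1 / C0 ^ 2 * ζ) := ⟨_, rfl⟩
  have hRn1 : 1 ≤ Rn := by
    rw [hRn]
    have : 0 ≤ 2 * C0 / (m1 / C0 ^ 2 * ζ) := by positivity
    linarith
  obtain ⟨m, hm⟩ := exists_nat_gt (8 * (C0 + 1) * (2 * Rn + 1) / θ)
  obtain ⟨c0, hc0, h4⟩ := h3 b v ((m : ℝ) ^ 2) hb hv (by positivity)
  obtain ⟨l1, hl1, hl11, hnum⟩ := ev_extract
    ((ev1 (2 * b * m) (1 / 720) (by norm_num)).and
    ((ev1 (2 / ζ) (1 / 200) (by norm_num)).and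
    ((ev1 32 (1 / 9000) (by norm_num)).and
    ((ev1 8 (1 / 900 - 1 / 950) (by norm_num)).and
    ((Pool.Agent.H189.U.exp_dom (8 * (10 * d) ^ (3 * d) / θ) (201 / 100 * (3 * d) + 81 / 40)
      (1 / 950) (by norm_num)).and
    ((ev1 (10 / m1) (1 / 200) (by norm_num)).and
    ((ev1 8 (1 / 1000) (by norm_num)).and
    (ev1 3 (1 / 250) (by norm_num)))))))))
  refine ⟨min l1 c0, lt_min hl1 hc0, (min_le_left _ _).trans hl11, ?_⟩
  intro μ hμp hμb M V hM hV hvV lam hlam hlam0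
  have hV4 := Pool.Agent.H189.Loc.var_le b hb μ hμb M V hM hV
  have hlam1 : lam ≤ 1 := (hlam0.trans (min_le_left _ _)).trans hl11
  obtain ⟨n1, n2, n3, n4, n5, n6, n7, n8⟩ := hnum lam hlam (hlam0.trans (min_le_left _ _))
  obtain ⟨G, hG, hP, hGp⟩ := h4 lam hlam (hlam0.trans (min_le_right _ _)) μ hμp hμb M V hM hV hvV
  have hadd : ∀ p q : ℝ, lam ^ p * lam ^ q = lam ^ (p + q) := fun p q =>
    (Real.rpow_add hlam p q).symm
  have hpos : ∀ p : ℝ, 0 < lam ^ p := fun p => Real.rpow_pos_of_pos hlam p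
  have hone : ∀ p : ℝ, 0 ≤ p → 1 ≤ lam ^ (-p) := fun p hp =>
    Real.one_le_rpow_of_pos_of_le_one_of_nonpos hlam hlam1 (by linarith)
  have hV0 : 0 < V := by linarith
  refine ⟨G, hG, hP, fun ω hω a ha => ?_⟩
  obtain ⟨hωb, hGe⟩ := hGp ω hω
  have hlaw0 : ∀ e : ℝ, Bk d κ (2 * d + lam * M - e) → ∀ η : ℝ, lam ^ (81 / 40 : ℝ) ≤ η →
      η ≤ lam ^ (161 / 80 : ℝ) → ∀ u, Rs d (fun x => 2 * d + lam * ω x) a e η u →
      |(u a).im - (γ0 (2 * d + lam * M - e)).im| ≤ lam ^ (1 / 200 : ℝ) := by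
    intro e he η q1 q2 u hu
    have hη0 : 0 < η := lt_of_lt_of_le (hpos _) q1
    have h5 := hGe a ha e he η q1 q2 u hu (fun _ => 0) (by
      simp only [ne_eq, OfNat.ofNat_ne_zero, not_false_eq_true, zero_pow, Finset.sum_const_zero]
      positivity)
    have e1 : ((η : ℂ) * ∑' x : Zd d, ph (fun _ => (0 : ℝ)) (x - a) * ((‖u x‖ ^ 2 : ℝ) : ℂ)) =
        ((η * ∑' x, ‖u x‖ ^ 2 : ℝ) : ℂ) := by
      rw [Complex.ofReal_mul, Complex.ofReal_tsum]
      congr 1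
      refine tsum_congr fun x => ?_
      unfold ph
      simp
    have e2 : Tg γ0 γ1 η (lam ^ 2 * V) (2 * d + lam * M - e) (fun _ : Fin d => (0 : ℝ)) =
        (γ0 (2 * d + lam * M - e)).im := by
      unfold Tg
      simp
    rw [e1, e2, ← Complex.ofReal_sub, Complex.norm_real, Real.norm_eq_abs, ward hu] at h5
    exact h5
  refine ⟨hlaw0, fun α β hαe hαβ => ?_⟩
  have hK : ∀ x, |2 * (d : ℝ) + lam * ω x| ≤ 2 * d + lam * b := fun x => by
    refine (abs_add_le _ _).trans ?_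
    rw [abs_of_nonneg (by positivity : (0 : ℝ) ≤ 2 * d), abs_mul, abs_of_pos hlam]
    have := mul_le_mul_of_nonneg_left (hωb x) hlam.le
    linarith
  constructor
  · -- the spectral measure
    intro ms hms hmi
    obtain ⟨w, hw⟩ : ∃ w, w = lam ^ (253 / 125 : ℝ) := ⟨_, rfl⟩
    have hw0 : 0 < w := by rw [hw]; exact hpos _
    have hw3 : 3 * w ≤ β - α := by
      have q2 : w = lam ^ (1 / 250 : ℝ) * lam ^ (2 + 1 / 50 : ℝ) := by
        rw [hw, hadd]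
        norm_num
      have q3 : 3 * w ≤ lam ^ (2 + 1 / 50 : ℝ) := by
        rw [q2, ← mul_assoc]
        exact mul_le_of_le_one_left (hpos _).le n8
      linarith
    have hηr : ∀ η : ℝ, η = w ∨ η = w / 8 → lam ^ (81 / 40 : ℝ) ≤ η ∧ η ≤ lam ^ (161 / 80 : ℝ) := by
      intro η hη
      have q1 : lam ^ (81 / 40 : ℝ) ≤ w / 8 := by
        have q2 : lam ^ (81 / 40 : ℝ) = lam ^ (1 / 1000 : ℝ) * w := by
          rw [hw, hadd]
          norm_num
        rw [q2]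
        nlinarith
      have q3 : w ≤ lam ^ (161 / 80 : ℝ) := by
        rw [hw]
        exact Real.rpow_le_rpow_of_exponent_ge hlam hlam1 (by norm_num)
      rcases hη with hη | hη
      · rw [hη]
        exact ⟨by linarith, q3⟩
      · rw [hη]
        exact ⟨q1, by linarith⟩
    have hb2 : lam ^ (1 / 200 : ℝ) ≤ m1 / 10 := by
      have : 10 / m1 * lam ^ (1 / 200 : ℝ) = lam ^ (1 / 200 : ℝ) / (m1 / 10) := by
        field_simp
      rw [this, div_le_one (by positivity)] at n6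
      exact n6
    have hlaw : ∀ e, α ≤ e → e ≤ β → ∀ η : ℝ, η = w ∨ η = w / 8 →
        |∫ E, η / ((E - e) ^ 2 + η ^ 2) ∂ms - (γ0 (2 * d + lam * M - e)).im| ≤
          lam ^ (1 / 200 : ℝ) := by
      intro e he1 he2 η hη
      obtain ⟨q1, q2⟩ := hηr η hη
      have hη0 : 0 < η := lt_of_lt_of_le (hpos _) q1
      obtain ⟨u, hu, hui⟩ := hmi e η hη0
      have h5 := hGe a ha e (hαe e he1 he2) η q1 q2 u hu (fun _ => 0) (by
        simp only [ne_eq, OfNat.ofNat_ne_zero, not_false_eq_true, zero_pow, Finset.sum_const_zero]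
        positivity)
      have e1 : ((η : ℂ) * ∑' x : Zd d, ph (fun _ => (0 : ℝ)) (x - a) * ((‖u x‖ ^ 2 : ℝ) : ℂ)) =
          ((η * ∑' x, ‖u x‖ ^ 2 : ℝ) : ℂ) := by
        rw [Complex.ofReal_mul, Complex.ofReal_tsum]
        congr 1
        refine tsum_congr fun x => ?_
        unfold ph
        simp
      have e2 : Tg γ0 γ1 η (lam ^ 2 * V) (2 * d + lam * M - e) (fun _ : Fin d => (0 : ℝ)) =
          (γ0 (2 * d + lam * M - e)).im := by
        unfold Tg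
        simp
      rw [e1, e2, ← Complex.ofReal_sub, Complex.norm_real, Real.norm_eq_abs, ward hu, ← hui] at h5
      exact h5
    have hwin : ∀ e, α ≤ e → e ≤ β → m1 / 16 * w ≤ ms.real (Icc (e - w) (e + w)) := by
      intro e he1 he2
      have hbk := hαe e he1 he2
      obtain ⟨hl0, hl1', hg1, hg10⟩ := h1 _ hbk.1
      have hmm := h2 _ hbk.1 hbk.2
      have q1 := abs_le.1 (hlaw e he1 he2 w (Or.inl rfl))
      have q2 := abs_le.1 (hlaw e he1 he2 (w / 8) (Or.inr rfl))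
      have q3 := MWIN.mwin ms e w (γ0 (2 * d + lam * M - e)).im (lam ^ (1 / 200 : ℝ)) hw0
        (by linarith) (by linarith) (by linarith [q1.2]) (by linarith [q2.1])
      refine le_trans ?_ q3
      have : m1 ≤ (γ0 (2 * d + lam * M - e)).im := by linarith
      gcongr
    have hfin := MWIN.mlower ms w (m1 / 16) α β hw0 (by positivity) (by linarith) hwin
    refine le_trans (le_of_eq ?_) hfin
    ring
  · -- the localised eigenfunctions
    intro ι s u c E hfam hE heig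
    obtain ⟨A, hA⟩ : ∃ A, A = Real.exp (lam ^ (-(1 / 1000) : ℝ)) := ⟨_, rfl⟩
    obtain ⟨ℓ, hℓ⟩ : ∃ ℓ, ℓ = lam ^ (-(2 + 1 / 100) : ℝ) := ⟨_, rfl⟩
    rw [← hA, ← hℓ] at hfam
    have hA1 : 1 ≤ A := by
      rw [hA]
      exact Real.one_le_exp (hpos _).le
    have hℓ1 : 1 ≤ ℓ := by rw [hℓ]; exact hone _ (by norm_num)
    obtain ⟨η, hη⟩ : ∃ η, η = lam ^ (81 / 40 : ℝ) := ⟨_, rfl⟩
    have hη0 : 0 < η := by rw [hη]; exact hpos _
    obtain ⟨R, hR⟩ : ∃ R, R = lam ^ (-(2 + 1 / 90) : ℝ) := ⟨_, rfl⟩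
    have hR0 : 0 < R := by rw [hR]; exact hpos _
    have hζl : lam ^ (1 / 200 : ℝ) ≤ ζ / 2 := by
      rw [div_mul_eq_mul_div, div_le_one hζ] at n2
      linarith
    have hζ1 : lam ^ (1 / 200 : ℝ) ≤ 1 := Real.rpow_le_one hlam.le hlam1 (by norm_num)
    -- the mass of the ball
    obtain ⟨i⟩ : Nonempty (Fin d) := ⟨⟨0, by omega⟩⟩
    have hrb : Real.sqrt (η * (lam ^ 2 * V)) ≤ 2 * b * lam ^ (2 + 1 / 80 : ℝ) := by
      refine Real.sqrt_le_iff.2 ⟨by positivity, ?_⟩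
      have e1 : (2 * b * lam ^ (2 + 1 / 80 : ℝ)) ^ 2 = lam ^ (81 / 40 : ℝ) * lam ^ 2 *
          (4 * b ^ 2) := by
        rw [mul_pow, ← Real.rpow_natCast (lam ^ (2 + 1 / 80 : ℝ)), ← Real.rpow_mul hlam.le,
          ← Real.rpow_natCast lam, hadd]
        norm_num
        ring
      rw [e1, hη, mul_assoc (lam ^ (81 / 40 : ℝ))]
      gcongr
    have hrm : Real.sqrt (η * (lam ^ 2 * V)) * m * R ≤ Real.pi / 3 := by
      have e1 : lam ^ (2 + 1 / 80 : ℝ) * R = lam ^ (1 / 720 : ℝ) := by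
        rw [hR, hadd]
        norm_num
      calc Real.sqrt (η * (lam ^ 2 * V)) * m * R ≤ 2 * b * lam ^ (2 + 1 / 80 : ℝ) * m * R := by
            gcongr
        _ = 2 * b * m * lam ^ (1 / 720 : ℝ) := by rw [← e1]; ring
        _ ≤ 1 := n1
        _ ≤ Real.pi / 3 := by linarith
    have hball : ∀ e, α ≤ e → e ≤ β → ∀ g : Zd d → ℂ,
        Rs d (fun x => 2 * d + lam * ω x) a e η g →
        η * ∑' x, (if ‖x - a‖ ≤ R then ‖g x‖ ^ 2 else 0) ≤ θ := by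
      intro e he1 he2 g hg
      have hbk := hαe e he1 he2
      obtain ⟨hl0, hl1', hg1, hg10⟩ := h1 _ hbk.1
      have hmm := h2 _ hbk.1 hbk.2
      have hC := hup _ _ hbk.1 hl0
      have q := ball_mass i a g hg.sq γ0 γ1 (2 * d + lam * M - e) η (lam ^ 2 * V) m1 C0
        (lam ^ (1 / 200 : ℝ)) hη0 (by positivity) m R Rn ζ hm1 hC0 hmm hg10
        ((Complex.im_le_norm _).trans hC) hζ1 hζ hζl hR0.le hrm hRn (fun p hp =>
          hGe a ha e hbk η (le_of_eq hη.symm) (by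
            rw [hη]
            exact Real.rpow_le_rpow_of_exponent_ge hlam hlam1 (by norm_num)) g hg p hp)
      refine q.trans ?_
      have h8 : (C0 + 1) * ((2 * Rn + 1) / (m + 1)) ≤ θ / 8 := by
        rw [div_lt_iff₀ hθ] at hm
        rw [mul_div_assoc', div_le_iff₀ (by positivity)]
        nlinarith
      rw [hζd]
      linarith
    -- the tails
    have htail : 8 * A ^ 4 * (2 * (1 + 4 * d * ℓ)) ^ (3 * d) * Real.exp (-(R / (4 * ℓ))) * η⁻¹ ≤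
        θ := by
      have e1 : R / (4 * ℓ) = lam ^ (-(1 / 900) : ℝ) / 4 := by
        have : R = lam ^ (-(1 / 900) : ℝ) * ℓ := by
          rw [hR, hℓ, hadd]
          norm_num
        rw [this]
        have : ℓ ≠ 0 := by positivity
        field_simp
      have e2 : 4 * lam ^ (-(1 / 1000) : ℝ) ≤ lam ^ (-(1 / 900) : ℝ) / 8 := by
        have : lam ^ (-(1 / 1000) : ℝ) = lam ^ (1 / 9000 : ℝ) * lam ^ (-(1 / 900) : ℝ) := by
          rw [hadd]
          norm_num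
        rw [this]
        have := mul_le_mul_of_nonneg_right n3 (hpos (-(1 / 900))).le
        linarith
      have e3 : lam ^ (-(1 / 950) : ℝ) ≤ lam ^ (-(1 / 900) : ℝ) / 8 := by
        have : lam ^ (-(1 / 950) : ℝ) = lam ^ (1 / 900 - 1 / 950 : ℝ) *
            lam ^ (-(1 / 900) : ℝ) := by
          rw [hadd]
          norm_num
        rw [this]
        have := mul_le_mul_of_nonneg_right n4 (hpos (-(1 / 900))).le
        linarith
      have e4 : A ^ 4 * Real.exp (-(R / (4 * ℓ))) ≤ Real.exp (-lam ^ (-(1 / 950) : ℝ)) := by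
        rw [hA, ← Real.exp_nat_mul, ← Real.exp_add, e1]
        refine Real.exp_le_exp.2 ?_
        push_cast
        linarith
      have e5 : (2 * (1 + 4 * d * ℓ)) ^ (3 * d) ≤ (10 * d) ^ (3 * d) * ℓ ^ (3 * d) := by
        rw [← mul_pow]
        refine pow_le_pow_left₀ (by positivity) ?_ _
        have : (1 : ℝ) ≤ d * ℓ := by nlinarith
        nlinarith
      have e6 : ℓ ^ (3 * d) * η⁻¹ = lam ^ (-(201 / 100 * (3 * d) + 81 / 40) : ℝ) := by
        rw [hℓ, hη, ← Real.rpow_natCast, ← Real.rpow_mul hlam.le, ← Real.rpow_neg hlam.le, hadd]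
        congr 1
        push_cast
        ring
      have e7 : 8 * A ^ 4 * (2 * (1 + 4 * d * ℓ)) ^ (3 * d) * Real.exp (-(R / (4 * ℓ))) * η⁻¹ ≤
          8 * ((10 * d) ^ (3 * d) * (ℓ ^ (3 * d) * η⁻¹)) *
            Real.exp (-lam ^ (-(1 / 950) : ℝ)) := by
        calc 8 * A ^ 4 * (2 * (1 + 4 * d * ℓ)) ^ (3 * d) * Real.exp (-(R / (4 * ℓ))) * η⁻¹ =
            8 * (((2 * (1 + 4 * d * ℓ)) ^ (3 * d)) * η⁻¹) *
              (A ^ 4 * Real.exp (-(R / (4 * ℓ)))) := by ring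
          _ ≤ 8 * (((10 * d) ^ (3 * d) * ℓ ^ (3 * d)) * η⁻¹) *
              Real.exp (-lam ^ (-(1 / 950) : ℝ)) := by gcongr
          _ = _ := by ring
      refine e7.trans ?_
      rw [e6, Real.exp_neg, ← div_eq_mul_inv, div_le_iff₀ (Real.exp_pos _)]
      have e8 := mul_le_mul_of_nonneg_left n5 hθ.le
      refine le_trans (le_of_eq ?_) e8
      field_simp
    have hη2 : 2 * η ≤ β - α := by
      have q2 : η = lam ^ (1 / 1000 : ℝ) * (lam ^ (1 / 250 : ℝ) * lam ^ (2 + 1 / 50 : ℝ)) := by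
        rw [hη, hadd, hadd]
        norm_num
      have q3 : 0 < lam ^ (2 + 1 / 50 : ℝ) := hpos _
      have q4 : 2 * η ≤ lam ^ (2 + 1 / 50 : ℝ) := by
        rw [q2]
        have q5 : lam ^ (1 / 1000 : ℝ) ≤ 1 / 8 := by linarith
        have q6 : lam ^ (1 / 250 : ℝ) ≤ 1 := Real.rpow_le_one hlam.le hlam1 (by norm_num)
        have q7 : lam ^ (1 / 1000 : ℝ) * (lam ^ (1 / 250 : ℝ) * lam ^ (2 + 1 / 50 : ℝ)) ≤
            1 / 8 * (1 * lam ^ (2 + 1 / 50 : ℝ)) := by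
          have := hpos (1 / 250)
          gcongr
        linarith
      linarith
    have hsum := WSUM.wsum s E (fun j => ‖u j a‖ ^ 2) (fun j _ => by positivity) η α β (2 * θ)
      hη0 hη2 hE (fun e he1 he2 => by
        obtain ⟨g, hg⟩ := Pool.Agent.TH794.QE.rs_exists (fun x => 2 * (d : ℝ) + lam * ω x) _ hK a
          e η hη0
        have h5 := hfam.low_ball (by omega) hA1 hℓ1 hg hη0 E heig R
        have h6 := mul_le_mul_of_nonneg_left h5 hη0.le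
        have h7 := hball e he1 he2 g hg
        have h8 : η * (8 * A ^ 4 * (2 * (1 + 4 * d * ℓ)) ^ (3 * d) * Real.exp (-(R / (4 * ℓ))) *
            (η⁻¹) ^ 2) = 8 * A ^ 4 * (2 * (1 + 4 * d * ℓ)) ^ (3 * d) *
              Real.exp (-(R / (4 * ℓ))) * η⁻¹ := by
          field_simp
        rw [mul_add, h8] at h6
        have h9 : ∑ j ∈ s, ‖u j a‖ ^ 2 * (η / ((E j - e) ^ 2 + η ^ 2)) =
            η * Pool.Agent.H189.W.wgt s u E a e η := by
          unfold Pool.Agent.H189.W.wgt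
          rw [Finset.mul_sum]
          exact Finset.sum_congr rfl fun j _ => by ring
        rw [h9]
        linarith)
    refine hsum.trans (le_of_eq ?_)
    rw [hθd]
    ring


/-- **the local density of states** -/
theorem ldos (d : ℕ) (hd : 2 ≤ d) (γ0 γ1 : ℝ → ℂ) (hbase : BP d γ0 γ1) (κ : ℝ) (hκ : 0 < κ)
    (hκ1 : κ ≤ 1) : ∃ lam0 : ℝ, 0 < lam0 ∧ lam0 ≤ 1 ∧
      ∀ (M lam : ℝ) (ω : Zd d → ℝ) (a : Zd d), 0 < lam → lam ≤ lam0 →
      (∀ e : ℝ, Bk d (κ / 2) (2 * d + lam * M - e) → ∀ η : ℝ, lam ^ (81 / 40 : ℝ) ≤ η →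
          η ≤ lam ^ (161 / 80 : ℝ) → ∀ u, Rs d (fun x => 2 * d + lam * ω x) a e η u →
          |(u a).im - (γ0 (2 * d + lam * M - e)).im| ≤ lam ^ (1 / 200 : ℝ)) →
      ∀ α β : ℝ, (∀ e, α ≤ e → e ≤ β → Bk d κ (2 * d + lam * M - e)) →
        α + lam ^ (2 + 1 / 50 : ℝ) ≤ β →
      ∀ m : Measure ℝ, IsFiniteMeasure m → (∀ e η : ℝ, 0 < η →
          ∃ u, Rs d (fun x => 2 * d + lam * ω x) a e η u ∧
            ∫ E, η / ((E - e) ^ 2 + η ^ 2) ∂m = (u a).im) →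
        |m.real (Icc α β) - (1 / Real.pi) * ∫ e in α..β, (γ0 (2 * d + lam * M - e)).im| ≤
          lam ^ (1 / 300 : ℝ) * (β - α) := by
  have hd2 : (2 : ℝ) ≤ d := by exact_mod_cast hd
  have hπ3 := Real.pi_gt_three
  obtain ⟨C0, hC0, hup⟩ := up d hd (κ / 2) (by positivity) (by linarith)
  obtain ⟨l1, hl1, hl11, hnum⟩ := ev_extract
    ((ev1 (8 / κ) (81 / 40) (by norm_num)).and
    ((ev1 (16 * 2026 * (C0 + 1) + 4 / κ) (1 / 1500) (by norm_num)).and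
    (ev1 2 (81 / 40) (by norm_num))))
  refine ⟨l1, hl1, hl11, fun M lam ω a hlam hle hlaw0 α β hαe hαβ m hm hpint => ?_⟩
  obtain ⟨n1, n2, n3⟩ := hnum lam hlam hle
  have hlam1 : lam ≤ 1 := hle.trans hl11
  have hpos : ∀ p : ℝ, 0 < lam ^ p := fun p => Real.rpow_pos_of_pos hlam p
  have hadd : ∀ p q : ℝ, lam ^ p * lam ^ q = lam ^ (p + q) :=
    fun p q => (Real.rpow_add hlam p q).symm
  -- the total mass
  have hmass : m.real Set.univ ≤ 1 := by
    refine Pool.Agent.H189.W.mass_le m fun η hη => ?_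
    obtain ⟨u, hR, hp⟩ := hpint 0 η hη
    have hp' : Pool.Agent.H189.W.pint m η 0 = (u a).im := hp
    rw [hp']
    have h1 := Pool.Agent.H189.U.rsU_norm hR hη
    have h2 := hR.sq.le_tsum a fun y _ => by positivity
    have h3 : ‖u a‖ ≤ η⁻¹ :=
      (pow_le_pow_iff_left₀ (norm_nonneg _) (inv_pos.2 hη).le two_ne_zero).1 (h2.trans h1)
    have h4 : (u a).im ≤ η⁻¹ := (Complex.im_le_norm _).trans h3
    calc η * (u a).im ≤ η * η⁻¹ := by gcongr
      _ = 1 := mul_inv_cancel₀ hη.ne'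
  obtain ⟨η, hη⟩ : ∃ η, η = lam ^ (81 / 40 : ℝ) := ⟨_, rfl⟩
  have hη0 : 0 < η := by rw [hη]; exact hpos _
  rw [← hη] at n1 n3
  have hαβ' : α ≤ β := by linarith [hpos (2 + 1 / 50)]
  -- the clamped energies
  obtain ⟨cl, hcl⟩ : ∃ cl : ℝ → ℝ, cl = fun e => max (α - κ / 2) (min (β + κ / 2) e) := ⟨_, rfl⟩
  have hcl1 : ∀ e, α - κ / 2 ≤ cl e ∧ cl e ≤ β + κ / 2 := fun e => by
    rw [hcl]
    exact ⟨le_max_left _ _, max_le (by linarith) (min_le_left _ _)⟩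
  have hcl2 : ∀ e, α - κ / 2 ≤ e → e ≤ β + κ / 2 → cl e = e := fun e h1 h2 => by
    rw [hcl]
    simp only
    rw [min_eq_right h2, max_eq_right h1]
  have hclb : ∀ e, Bk d (κ / 2) (2 * d + lam * M - cl e) := by
    intro e
    obtain ⟨h1, h2⟩ := hcl1 e
    obtain ⟨e', he'⟩ : ∃ e', e' = max α (min β (cl e)) := ⟨_, rfl⟩
    have h3 : α ≤ e' := by rw [he']; exact le_max_left _ _
    have h4 : e' ≤ β := by rw [he']; exact max_le hαβ' (min_le_left _ _)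
    refine (hαe e' h3 h4).near (r := κ / 2) ?_ (by linarith) (by positivity)
    have e1 : 2 * (d : ℝ) + lam * M - e' - (2 * d + lam * M - cl e) = cl e - e' := by ring
    rw [e1, he', abs_le]
    rcases le_total (cl e) β with h5 | h5
    · rw [min_eq_right h5]
      rcases le_total α (cl e) with h6 | h6
      · rw [max_eq_right h6]
        constructor <;> linarith
      · rw [max_eq_left h6]
        constructor <;> linarith
    · rw [min_eq_left h5, max_eq_right hαβ']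
      constructor <;> linarith
  have hgc : Continuous fun e : ℝ => (γ0 (2 * d + lam * M - cl e)).im := by
    have h1 := hbase.cont hd (κ / 2) (by positivity) (by linarith)
    have h2 : Continuous fun e : ℝ => 2 * (d : ℝ) + lam * M - cl e := by
      rw [hcl]
      fun_prop
    exact h1.comp_continuous h2 hclb
  have hC : ∀ e, (γ0 (2 * d + lam * M - cl e)).im ≤ C0 := fun e =>
    (Complex.im_le_norm _).trans (hup _ _ (hclb e).1
      ((hbase (κ / 2) (by positivity) (by linarith)).1 _ (hclb e).1).1)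
  -- the local law
  have hlaw : ∀ e, α - κ / 2 ≤ e → e ≤ β + κ / 2 →
      |Pool.Agent.H189.W.pint m η e - (γ0 (2 * d + lam * M - cl e)).im| ≤
        lam ^ (1 / 200 : ℝ) := by
    intro e he1 he2
    obtain ⟨u, hR, hp⟩ := hpint e η hη0
    have hp' : Pool.Agent.H189.W.pint m η e = (u a).im := hp
    have hb := hclb e
    rw [hcl2 e he1 he2] at hb
    rw [hp', hcl2 e he1 he2]
    exact hlaw0 e hb η (le_of_eq hη.symm) (by
      rw [hη]
      exact Real.rpow_le_rpow_of_exponent_ge hlam hlam1 (by norm_num)) u hR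
  obtain ⟨K0, hK0⟩ : ∃ K0 : ℕ, K0 = ⌊κ / (4 * η)⌋₊ := ⟨_, rfl⟩
  have hκη : 2 ≤ κ / (4 * η) := by
    rw [le_div_iff₀ (by positivity)]
    rw [div_mul_eq_mul_div, div_le_one hκ] at n1
    linarith
  have hK1 : 1 ≤ K0 := by
    rw [hK0]
    exact Nat.le_floor (by norm_num; linarith)
  have hKle : (K0 : ℝ) ≤ κ / (4 * η) := by rw [hK0]; exact Nat.floor_le (by positivity)
  have hKlt : κ / (4 * η) < K0 + 1 := by rw [hK0]; exact Nat.lt_floor_add_one _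
  have hKr1 : (1 : ℝ) ≤ K0 := by exact_mod_cast hK1
  have hKκ : 2 * K0 * η ≤ κ / 2 := by
    rw [le_div_iff₀ (by positivity)] at hKle
    linarith
  have hdet := Pool.Agent.H189.W.ldos_det m hmass η (lam ^ (1 / 200 : ℝ)) C0 α β (κ / 2) _ hgc
    hη0 (hpos _).le hαβ' hC K0 hK1 hKκ hlaw
  -- numbers
  have hlog : Real.log (K0 + 1) ≤ 2025 * lam ^ (-(1 / 1000) : ℝ) := by
    have h1 : (K0 : ℝ) + 1 ≤ η⁻¹ := by
      have h2 : κ / (4 * η) ≤ (1 / 4) * η⁻¹ := by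
        rw [div_le_iff₀ (by positivity)]
        have : 1 / 4 * η⁻¹ * (4 * η) = 1 := by field_simp
        linarith
      have h3 : 2 ≤ η⁻¹ := by
        rw [← one_div, le_div_iff₀ hη0]
        exact n3
      linarith
    have h2 : Real.log (K0 + 1) ≤ Real.log η⁻¹ := Real.log_le_log (by positivity) h1
    have h3 : Real.log η⁻¹ = 81 / 40 * Real.log lam⁻¹ := by
      rw [hη, Real.log_inv, Real.log_rpow hlam, Real.log_inv]
      ring
    have h4 := Real.log_le_rpow_div (x := lam⁻¹) (ε := 1 / 1000) (by positivity) (by norm_num)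
    have h5 : lam⁻¹ ^ (1 / 1000 : ℝ) = lam ^ (-(1 / 1000) : ℝ) := by
      rw [Real.inv_rpow hlam.le, Real.rpow_neg hlam.le]
    rw [h5] at h4
    have h6 : lam ^ (-(1 / 1000) : ℝ) / (1 / 1000) = 1000 * lam ^ (-(1 / 1000) : ℝ) := by ring
    rw [h6] at h4
    rw [h3] at h2
    have := hpos (-(1 / 1000))
    linarith
  have hinv : 1 / (2 * (K0 : ℝ)) ≤ 4 / κ * η := by
    have h1 : κ / (8 * η) ≤ K0 := by
      have e1 : κ / (8 * η) = κ / (4 * η) / 2 := by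
        field_simp
        ring
      rw [e1]
      linarith
    have h2 : κ / (4 * η) ≤ 2 * K0 := by
      have e1 : κ / (4 * η) = 2 * (κ / (8 * η)) := by
        field_simp
        ring
      rw [e1]
      linarith
    calc 1 / (2 * (K0 : ℝ)) ≤ 1 / (κ / (4 * η)) :=
          one_div_le_one_div_of_le (by positivity) h2
      _ = 4 / κ * η := by
          rw [one_div_div]
          ring
  have hone : 1 ≤ lam ^ (-(1 / 1000) : ℝ) :=
    Real.one_le_rpow_of_pos_of_le_one_of_nonpos hlam hlam1 (by norm_num)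
  have hl200 : lam ^ (1 / 200 : ℝ) ≤ 1 := Real.rpow_le_one hlam.le hlam1 (by norm_num)
  have hl23 : lam ^ (1 / 200 : ℝ) ≤ lam ^ (1 / 300 : ℝ) :=
    Real.rpow_le_rpow_of_exponent_ge hlam hlam1 (by norm_num)
  have hend : 16 * (1 + Real.log (K0 + 1)) * (η * (C0 + lam ^ (1 / 200 : ℝ))) +
      1 / (2 * (K0 : ℝ)) ≤ lam ^ (1 / 300 : ℝ) * (β - α) := by
    have h1 : 16 * (1 + Real.log (K0 + 1)) * (η * (C0 + lam ^ (1 / 200 : ℝ))) ≤
        16 * (2026 * lam ^ (-(1 / 1000) : ℝ)) * (η * (C0 + 1)) := by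
      have h2 : 0 ≤ 1 + Real.log (K0 + 1) := by
        have := Real.log_nonneg (show (1 : ℝ) ≤ K0 + 1 by linarith)
        linarith
      have h3 : 1 + Real.log (K0 + 1) ≤ 2026 * lam ^ (-(1 / 1000) : ℝ) := by linarith
      have h4 : η * (C0 + lam ^ (1 / 200 : ℝ)) ≤ η * (C0 + 1) := by gcongr
      have h5 : 0 ≤ η * (C0 + lam ^ (1 / 200 : ℝ)) := by
        have := hpos (1 / 200)
        positivity
      exact mul_le_mul (by linarith) h4 h5 (by positivity)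
    have h2 : 4 / κ * η ≤ 4 / κ * (lam ^ (-(1 / 1000) : ℝ) * η) := by
      have : η ≤ lam ^ (-(1 / 1000) : ℝ) * η := by nlinarith
      gcongr
    have h3 : lam ^ (-(1 / 1000) : ℝ) * η =
        lam ^ (1 / 1500 : ℝ) * (lam ^ (1 / 300 : ℝ) * lam ^ (2 + 1 / 50 : ℝ)) := by
      rw [hη, hadd, hadd, hadd]
      norm_num
    calc _ ≤ 16 * (2026 * lam ^ (-(1 / 1000) : ℝ)) * (η * (C0 + 1)) +
          4 / κ * (lam ^ (-(1 / 1000) : ℝ) * η) := by linarith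
      _ = (16 * 2026 * (C0 + 1) + 4 / κ) * (lam ^ (-(1 / 1000) : ℝ) * η) := by ring
      _ = ((16 * 2026 * (C0 + 1) + 4 / κ) * lam ^ (1 / 1500 : ℝ)) *
          (lam ^ (1 / 300 : ℝ) * lam ^ (2 + 1 / 50 : ℝ)) := by rw [h3]; ring
      _ ≤ 1 * (lam ^ (1 / 300 : ℝ) * lam ^ (2 + 1 / 50 : ℝ)) := by
          refine mul_le_mul_of_nonneg_right n2 ?_
          have := hpos (1 / 300)
          have := hpos (2 + 1 / 50)
          positivity
      _ ≤ lam ^ (1 / 300 : ℝ) * (β - α) := by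
          rw [one_mul]
          exact mul_le_mul_of_nonneg_left (by linarith) (hpos _).le
  have hcong : ∫ e in α..β, (γ0 (2 * d + lam * M - cl e)).im =
      ∫ e in α..β, (γ0 (2 * d + lam * M - e)).im := by
    refine intervalIntegral.integral_congr fun e he => ?_
    rw [Set.uIcc_of_le hαβ'] at he
    rw [hcl2 e (by linarith [he.1]) (by linarith [he.2])]
  rw [hcong] at hdet
  obtain ⟨X, hX⟩ : ∃ X, X = m.real (Set.Icc α β) := ⟨_, rfl⟩
  obtain ⟨Y, hY⟩ : ∃ Y, Y = ∫ e in α..β, (γ0 (2 * d + lam * M - e)).im := ⟨_, rfl⟩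
  rw [← hX, ← hY] at hdet
  rw [← hX, ← hY]
  have h1 : |Real.pi * X - Y| ≤ Real.pi * (lam ^ (1 / 300 : ℝ) * (β - α)) := by
    refine hdet.trans ?_
    have h2 : lam ^ (1 / 200 : ℝ) * (β - α) ≤ lam ^ (1 / 300 : ℝ) * (β - α) := by
      refine mul_le_mul_of_nonneg_right hl23 (by linarith)
    have h3 : 0 ≤ lam ^ (1 / 300 : ℝ) * (β - α) :=
      mul_nonneg (hpos _).le (by linarith)
    nlinarith
  have h2 : X - 1 / Real.pi * Y = (Real.pi * X - Y) / Real.pi := by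
    field_simp
  rw [h2, abs_div, abs_of_pos Real.pi_pos, div_le_iff₀ Real.pi_pos]
  linarith


end Pool.Agent.H189.ME2
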